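import Pool.Agent.Helper22.NP.Basic

/-!
Module CP2: cyclic extensions of degree `p^2`: `u_2 ≥ p u_1`.
-/

namespace Pool.Agent.Helper22.NP

open scoped Classical

/-- a homomorphism to the `p`-th roots of unity as a character with values in `ZMod p` -/
theorem cp2_char (p : ℕ) [hp : Fact p.Prime] {G : Type} [Group G] (ω : G →* ℂˣ)
    (hω : ∀ g, ω g ^ p = 1) (ζ : ℂˣ) (hζ : ζ ^ p = 1) (hζ1 : ζ ≠ 1) :
    ∃ χ : G →* Multiplicative (ZMod p), ∀ g, ζ ^ (Multiplicative.toAdd (χ g)).val = ω g := by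
  have ho : orderOf ζ = p := orderOf_eq_prime hζ hζ1
  have hprim : IsPrimitiveRoot (ζ : ℂ) p := by
    have h1 : IsPrimitiveRoot ζ p := ho ▸ IsPrimitiveRoot.orderOf ζ
    exact IsPrimitiveRoot.coe_units_iff.mpr h1
  have hex : ∀ g, ∃ n : ZMod p, ζ ^ n.val = ω g := by
    intro g
    have h1 : ((ω g : ℂˣ) : ℂ) ^ p = 1 := by
      rw [← Units.val_pow_eq_pow_val, hω, Units.val_one]
    obtain ⟨i, hi, hi2⟩ := hprim.eq_pow_of_pow_eq_one h1
    refine ⟨(i : ZMod p), ?_⟩
    rw [ZMod.val_natCast, Nat.mod_eq_of_lt hi]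
    apply Units.ext
    rw [Units.val_pow_eq_pow_val, hi2]
  choose f hf using hex
  refine ⟨MonoidHom.mk' (fun g => Multiplicative.ofAdd (f g)) ?_, fun g => hf g⟩
  intro a b
  rw [← ofAdd_add]
  congr 1
  have h1 : ζ ^ (f (a * b)).val = ζ ^ ((f a).val + (f b).val) := by
    rw [hf, pow_add, hf, hf, map_mul]
  rw [pow_eq_pow_iff_modEq, ho] at h1
  have h2 := (ZMod.natCast_eq_natCast_iff _ _ _).mpr h1
  rw [Nat.cast_add, ZMod.natCast_zmod_val, ZMod.natCast_zmod_val, ZMod.natCast_zmod_val] at h2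
  exact h2

/-- the values of `x^p - x` at poles -/
theorem cp2_pole {p : ℕ} (hp : 2 ≤ p) {M : Type} [Field M] (v : AddValuation M (WithTop ℤ)) (x : M)
    (n : ℤ) (hn : n < 0) (hx : v x = (n : WithTop ℤ)) :
    v (x ^ p - x) = (((p : ℤ) * n : ℤ) : WithTop ℤ) := by
  have h1 : v (x ^ p) = (((p : ℤ) * n : ℤ) : WithTop ℤ) := by
    rw [AddValuation.map_pow, hx, ← WithTop.coe_nsmul, nsmul_eq_mul]
  have h2 : v (x ^ p) < v x := by
    rw [h1, hx, WithTop.coe_lt_coe]
    have : (2 : ℤ) ≤ p := by exact_mod_cast hp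
    nlinarith
  rw [AddValuation.map_sub_eq_of_lt_left _ h2, h1]

theorem cp2_neg {p : ℕ} {M : Type} [Field M] (v : AddValuation M (WithTop ℤ)) (x : M)
    (h : v (x ^ p - x) < 0) : v x < 0 := by
  by_contra hn
  have h0 : 0 ≤ v x := not_lt.mp hn
  have h1 : 0 ≤ v (x ^ p) := by
    rw [AddValuation.map_pow]; exact nsmul_nonneg h0 p
  exact absurd (AddValuation.map_le_sub v h1 h0) (not_le.mpr h)

/-- the value of an Artin-Schreier generator -/
theorem cp2_val {p : ℕ} (hp : 2 ≤ p) {M : Type} [Field M] (v : AddValuation M (WithTop ℤ)) (x : M)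
    (m : ℕ) (hm : 0 < m) (h : v (x ^ p - x) = ((-((m * p : ℕ) : ℤ) : ℤ) : WithTop ℤ)) :
    v x = ((-(m : ℤ) : ℤ) : WithTop ℤ) := by
  have hneg : v x < 0 := by
    apply cp2_neg (p := p)
    rw [h, ← WithTop.coe_zero, WithTop.coe_lt_coe]
    have : 0 < m * p := Nat.mul_pos hm (by omega)
    omega
  have hx : v x ≠ ⊤ := ne_top_of_lt hneg
  obtain ⟨n, hn⟩ := WithTop.ne_top_iff_exists.mp hx
  rw [← hn, ← WithTop.coe_zero, WithTop.coe_lt_coe] at hneg
  have h1 := cp2_pole hp v x n hneg hn.symm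
  rw [h, WithTop.coe_eq_coe] at h1
  rw [← hn, WithTop.coe_eq_coe]
  have hp0 : (p : ℤ) ≠ 0 := by
    have : (2 : ℤ) ≤ p := by exact_mod_cast hp
    omega
  apply mul_left_cancel₀ hp0
  rw [← h1]; push_cast; ring

theorem cp2_lt {c : ℕ} {a b : WithTop ℤ} (h : c • a < c • b) : a < b := by
  by_contra hn
  exact absurd (nsmul_le_nsmul_right (not_lt.mp hn) c) (not_le.mpr h)

theorem cp2_div (c : ℕ) (hc : 0 < c) (a : WithTop ℤ) (n : ℤ)
    (h : c • a = (((c : ℤ) * n : ℤ) : WithTop ℤ)) : a = (n : WithTop ℤ) := by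
  have hc0 : (c : ℤ) ≠ 0 := by exact_mod_cast hc.ne'
  induction a with
  | top =>
    exfalso
    have : c • (⊤ : WithTop ℤ) = ⊤ := by
      obtain ⟨d, rfl⟩ : ∃ d, c = d + 1 := ⟨c - 1, by omega⟩
      rw [succ_nsmul]; exact WithTop.add_top _
    rw [this] at h
    exact WithTop.top_ne_coe h
  | coe a =>
    rw [← WithTop.coe_nsmul, WithTop.coe_eq_coe, nsmul_eq_mul] at h
    rw [WithTop.coe_eq_coe]
    exact mul_left_cancel₀ hc0 h

theorem cp2_inj (c : ℕ) (hc : 0 < c) (a b : WithTop ℤ) (h : c • a = c • b) : a = b := by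
  induction b with
  | top =>
    induction a with
    | top => rfl
    | coe a =>
      refine (cp2_div c hc ⊤ a ?_).symm
      rw [← h, ← WithTop.coe_nsmul, nsmul_eq_mul]
  | coe b =>
    apply cp2_div c hc
    rw [h, ← WithTop.coe_nsmul, nsmul_eq_mul]

/-- the operator identity `(g - 1)^p = g^p - 1` -/
theorem cp2_op (p : ℕ) [Fact p.Prime] {G M : Type} [Group G] [Field M] [CharP M p]
    [MulSemiringAction G M] (g : G) (y : M) :
    (fun x : M => g • x - x)^[p] y = g ^ p • y - y := by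
  have : CharP (AddMonoid.End M) p := ⟨fun n => by
    rw [← CharP.cast_eq_zero_iff M p n]
    constructor
    · intro h
      have := DFunLike.congr_fun h (1 : M)
      rw [AddMonoid.End.natCast_apply] at this
      simpa using this
    · intro h
      ext m
      rw [AddMonoid.End.natCast_apply, nsmul_eq_mul, h, zero_mul]
      rfl⟩
  let T : AddMonoid.End M := DistribMulAction.toAddMonoidEnd G M g
  have h1 : (T - 1) ^ p = T ^ p - 1 ^ p := sub_pow_char_of_commute _ (Commute.one_right T)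
  have h2 : ((T - 1) ^ p : AddMonoid.End M) y = (T ^ p - 1 ^ p : AddMonoid.End M) y := by rw [h1]
  have h3 : ((T - 1) ^ p : AddMonoid.End M) y = (fun x : M => g • x - x)^[p] y := by
    rw [AddMonoid.End.coe_pow]; rfl
  have h4 : (T ^ p - 1 ^ p : AddMonoid.End M) y = g ^ p • y - y := by
    have : T ^ p = DistribMulAction.toAddMonoidEnd G M (g ^ p) := (map_pow _ _ _).symm
    rw [this, one_pow]; rfl
  rw [← h3, h2, h4]

/-- the action of `g` on the fixed field of a normal subgroup -/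
def cp2_sigma {G M : Type} [Group G] [Field M] [MulSemiringAction G M] (H : Subgroup G)
    [hH : H.Normal] (g : G) : FixedPoints.subfield H M ≃+* FixedPoints.subfield H M where
  toFun x := ⟨g • (x : M), fun h => by
    have h1 : g⁻¹ * (h : G) * g ∈ H := by
      have := hH.conj_mem (h : G) h.2 g⁻¹
      rwa [inv_inv] at this
    have h2 : (⟨g⁻¹ * (h : G) * g, h1⟩ : H) • (x : M) = x := x.2 ⟨g⁻¹ * (h : G) * g, h1⟩
    show (h : G) • g • (x : M) = g • (x : M)
    have h3 : (g⁻¹ * (h : G) * g) • (x : M) = x := h2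
    conv_rhs => rw [← h3]
    rw [smul_smul, smul_smul]
    congr 1
    group⟩
  invFun x := ⟨g⁻¹ • (x : M), fun h => by
    have h1 : g * (h : G) * g⁻¹ ∈ H := hH.conj_mem (h : G) h.2 g
    have h2 : (⟨g * (h : G) * g⁻¹, h1⟩ : H) • (x : M) = x := x.2 ⟨g * (h : G) * g⁻¹, h1⟩
    show (h : G) • g⁻¹ • (x : M) = g⁻¹ • (x : M)
    have h3 : (g * (h : G) * g⁻¹) • (x : M) = x := h2
    conv_rhs => rw [← h3]
    rw [smul_smul, smul_smul]
    congr 1
    group⟩
  left_inv x := Subtype.ext (inv_smul_smul g (x : M))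
  right_inv x := Subtype.ext (smul_inv_smul g (x : M))
  map_mul' x y := Subtype.ext (smul_mul' g (x : M) (y : M))
  map_add' x y := Subtype.ext (smul_add g (x : M) (y : M))

theorem cp2_sigma_coe {G M : Type} [Group G] [Field M] [MulSemiringAction G M] (H : Subgroup G)
    [H.Normal] (g : G) (x : FixedPoints.subfield H M) :
    ((cp2_sigma H g x : FixedPoints.subfield H M) : M) = g • (x : M) := rfl

theorem cp2_mi_mono {G : Type} [Group G] (i : G → ℕ) {x y : ℕ} (h : x ≤ y) (g : G) :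
    mi i x g ≤ mi i y g := by
  unfold mi
  split_ifs
  · exact h
  · exact min_le_min_left _ h

theorem cp2_Phi_mono {G : Type} [Group G] [Fintype G] (i : G → ℕ) {x y : ℕ} (h : x ≤ y) :
    Phi i x ≤ Phi i y := by
  unfold Phi
  apply div_le_div_of_nonneg_right _ (by positivity)
  exact Finset.sum_le_sum fun g _ => by exact_mod_cast cp2_mi_mono i h g

theorem cp2_coe_iter {G M : Type} [Group G] [Field M] [MulSemiringAction G M] (H : Subgroup G)
    [H.Normal] (g : G) (i : ℕ) (x : FixedPoints.subfield H M) :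
    (((fun x => cp2_sigma H g x - x)^[i] x : FixedPoints.subfield H M) : M) =
      (fun x : M => g • x - x)^[i] (x : M) := by
  induction i with
  | zero => rfl
  | succ i ih =>
    rw [Function.iterate_succ_apply', Function.iterate_succ_apply', ← ih]
    rfl

/-- the main inequality between the breaks -/
theorem cp2_main (hFIX : ST_FIX) (hHRB : ST_HRB) (hSHI : ST_SHI) (hDSU : ST_DSU)
    (p : ℕ) [hp : Fact p.Prime] (G k M : Type) [Field k] [CharP k p] [Field M] [Group G]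
    [Fintype G] [MulSemiringAction G M] (ι : k →+* M) (v : AddValuation M (WithTop ℤ))
    (hGS : GS G ι v) (H : Subgroup G) [H.Normal] (z : M) (j : ℕ) (hj : 0 < j) (hpj : ¬ p ∣ j)
    (hz : ∀ h ∈ H, h • z = z) (hvz : v z = ((-((j * Nat.card H : ℕ) : ℤ) : ℤ) : WithTop ℤ))
    (hz0 : ∀ g : G, g ∉ H → v (g • z - z) = 0) (y : M) (b : ℕ)
    (hvy : v (y ^ p - y) = ((-((b * Nat.card H : ℕ) : ℤ) : ℤ) : WithTop ℤ))
    (g : G) (hg : g ∉ H) (hu : g ^ p • y - y = 1) (hs : ∀ h ∈ H, h • (g • y - y) = g • y - y)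
    (hw : ∀ h ∈ H, h • (y ^ p - y) = y ^ p - y) : (p * p - p + 1) * j ≤ b := by
  have hp2 : 2 ≤ p := hp.out.two_le
  have hcM : CharP M p := charP_of_ring ι
  obtain ⟨ιF, vF, hι, hvF, hRV⟩ := hFIX G k M ι v hGS H
  have hc : 0 < Nat.card H := Nat.card_pos
  obtain ⟨ϖ, hϖ⟩ := hRV.uni
  have hvϖ : v (ϖ : M) = (((Nat.card H : ℕ) : ℤ) : WithTop ℤ) := by
    rw [hvF, hϖ, ← WithTop.coe_one, ← WithTop.coe_nsmul, nsmul_eq_mul, mul_one]
  have hσ1 : ∀ x, vF (cp2_sigma H g x) = vF x := by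
    intro x
    apply cp2_inj (Nat.card H) hc
    rw [← hvF, ← hvF, cp2_sigma_coe, hGS.inv]
  have hσ2 : ∀ c, cp2_sigma H g (ιF c) = ιF c := by
    intro c
    apply Subtype.ext
    rw [cp2_sigma_coe, hι, hGS.fix]
  have hσ3 : ∀ x, x ≠ 0 → vF x < vF (cp2_sigma H g x - x) := by
    intro x hx
    apply cp2_lt (c := Nat.card H)
    rw [← hvF, ← hvF]
    exact hGS.wild g (x : M) (fun h => hx (Subtype.ext h))
  have hi : vF (cp2_sigma H g ϖ - ϖ) = (((j : ℤ) + 1 : ℤ) : WithTop ℤ) := by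
    apply cp2_div (Nat.card H) hc
    rw [← hvF]
    have h1 := hHRB G k M ι v hGS H (ϖ : M) (fun h hh => ϖ.2 ⟨h, hh⟩) hvϖ g hg
    have h2 := (hDSU p G k M ι v hGS H z j hpj hz hvz hz0).1 g hg
    rw [h2] at h1
    have h3 : ((cp2_sigma H g ϖ - ϖ : FixedPoints.subfield H M) : M) = g • (ϖ : M) - ϖ := rfl
    rw [h3, h1]
    push_cast
    rfl
  have hS : ∀ (x : FixedPoints.subfield H M) (n : ℤ), (n : WithTop ℤ) ≤ vF x →
      ((n + j : ℤ) : WithTop ℤ) ≤ vF (cp2_sigma H g x - x) := by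
    intro x n hn
    by_cases hx : vF x = ⊤
    · have hx0 : x = 0 := (AddValuation.top_iff vF).mp hx
      rw [hx0, map_zero, sub_zero, AddValuation.map_zero]
      exact le_top
    · obtain ⟨m, hm⟩ := WithTop.ne_top_iff_exists.mp hx
      have h1 := (hSHI p k _ ιF vF hRV (cp2_sigma H g) hσ1 hσ2 hσ3 ϖ _ hϖ hi x m hm.symm).1
      refine le_trans ?_ h1
      rw [← hm, WithTop.coe_le_coe] at hn
      rw [WithTop.coe_le_coe]
      linarith
  let s : FixedPoints.subfield H M := ⟨g • y - y, fun h => hs h h.2⟩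
  let w : FixedPoints.subfield H M := ⟨y ^ p - y, fun h => hw h h.2⟩
  have hsc : ((s : FixedPoints.subfield H M) : M) = g • y - y := rfl
  have hwc : ((w : FixedPoints.subfield H M) : M) = y ^ p - y := rfl
  have hchain : ∀ n : ℤ, (n : WithTop ℤ) ≤ vF s → ∀ i : ℕ,
      ((n + i * j : ℤ) : WithTop ℤ) ≤ vF ((fun x => cp2_sigma H g x - x)^[i] s) := by
    intro n hn i
    induction i with
    | zero => simpa using hn
    | succ i ih =>
      rw [Function.iterate_succ_apply']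
      have := hS _ _ ih
      refine le_trans (le_of_eq ?_) this
      congr 1
      push_cast
      ring
  have hlast : (fun x => cp2_sigma H g x - x)^[p - 1] s = 1 := by
    apply Subtype.ext
    rw [cp2_coe_iter, hsc]
    have h1 : (fun x : M => g • x - x)^[p - 1] (g • y - y) = (fun x : M => g • x - x)^[p] y := by
      have h2 : p = (p - 1) + 1 := by omega
      conv_rhs => rw [h2, Function.iterate_succ_apply]
    rw [h1, cp2_op, hu]
    rfl
  have hbd : ∀ n : ℤ, (n : WithTop ℤ) ≤ vF s → n + ((p - 1 : ℕ) : ℤ) * j ≤ 0 := by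
    intro n hn
    have h1 := hchain n hn (p - 1)
    rw [hlast, AddValuation.map_one, ← WithTop.coe_zero, WithTop.coe_le_coe] at h1
    exact h1
  have hst : vF s ≠ ⊤ := by
    intro h
    have h1 := hbd 1 (by rw [h]; exact le_top)
    have : (0 : ℤ) ≤ ((p - 1 : ℕ) : ℤ) * j := by positivity
    linarith
  obtain ⟨n, hn⟩ := WithTop.ne_top_iff_exists.mp hst
  have hn1 := hbd n (le_of_eq hn)
  have hpc : ((p - 1 : ℕ) : ℤ) = (p : ℤ) - 1 := by
    rw [Nat.cast_sub (by omega), Nat.cast_one]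
  rw [hpc] at hn1
  have hpz : (2 : ℤ) ≤ p := by exact_mod_cast hp2
  have hjz : (1 : ℤ) ≤ j := by exact_mod_cast hj
  have hneg : n < 0 := by nlinarith
  have h1 := cp2_pole hp2 vF s n hneg hn.symm
  have h2 : s ^ p - s = cp2_sigma H g w - w := by
    apply Subtype.ext
    show (g • y - y) ^ p - (g • y - y) = g • (y ^ p - y) - (y ^ p - y)
    rw [sub_pow_char, smul_sub, smul_pow']
    ring
  have h3 : vF w = ((-(b : ℤ) : ℤ) : WithTop ℤ) := by
    apply cp2_div (Nat.card H) hc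
    rw [← hvF, hwc, hvy]
    congr 1
    push_cast
    ring
  have h4 := hS w _ (le_of_eq h3.symm)
  rw [← h2, h1, WithTop.coe_le_coe] at h4
  have h5 : ((p * p - p + 1 : ℕ) : ℤ) = (p : ℤ) * p - p + 1 := by
    rw [Nat.cast_add, Nat.cast_sub (Nat.le_mul_self p)]; push_cast; ring
  have h6 : (((p * p - p + 1) * j : ℕ) : ℤ) ≤ b := by
    rw [Nat.cast_mul, h5]
    nlinarith
  exact_mod_cast h6

theorem cp2_moved {p : ℕ} [hp : Fact p.Prime] {G M : Type} [Group G] [Field M] [CharP M p]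
    [MulSemiringAction G M] (χ : G →* Multiplicative (ZMod p)) (z : M)
    (hz : ∀ g : G, g • z = z + (((Multiplicative.toAdd (χ g)).val : ℕ) : M)) (g : G) :
    g • z = z ↔ χ g = 1 := by
  rw [hz, add_eq_left, CharP.cast_eq_zero_iff M p]
  constructor
  · intro h
    have h1 : (Multiplicative.toAdd (χ g)).val = 0 :=
      Nat.eq_zero_of_dvd_of_lt h (ZMod.val_lt _)
    have h2 : Multiplicative.toAdd (χ g) = 0 := (ZMod.val_eq_zero _).mp h1
    exact h2
  · intro h
    rw [h]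
    simp

theorem st_CP2 (hFIX : ST_FIX) (hHRB : ST_HRB) (hSHI : ST_SHI) (hASL : ST_ASL) (hASG : ST_ASG)
    (hREL : ST_REL) (hDSU : ST_DSU) : ST_CP2 := by
  intro p hp G k M _ _ _ _ _ _ _ ι v hGS hG ω hω2 hex
  obtain ⟨g0, hg0⟩ := hex
  have hp2 : 2 ≤ p := hp.out.two_le
  have hcM : CharP M p := charP_of_ring ι
  -- the characters
  obtain ⟨χ1, hχ1⟩ := cp2_char p ((powMonoidHom p).comp ω)
    (fun g => by
      show (ω g ^ p) ^ p = 1
      rw [← pow_mul, ← sq, hω2]) (ω g0 ^ p)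
    (by rw [← pow_mul, ← sq, hω2]) hg0
  have hχ1' : ∀ g, (ω g0 ^ p) ^ (Multiplicative.toAdd (χ1 g)).val = ω g ^ p := hχ1
  have hχ1e : ∀ g, χ1 g = 1 ↔ ω g ^ p = 1 := by
    intro g
    constructor
    · intro h
      rw [← hχ1', h]
      simp
    · intro h
      have h1 := hχ1' g
      rw [h] at h1
      have ho : orderOf (ω g0 ^ p) = p :=
        orderOf_eq_prime (by rw [← pow_mul, ← sq, hω2]) hg0
      have h2 := orderOf_dvd_of_pow_eq_one h1
      rw [ho] at h2
      have h3 : (Multiplicative.toAdd (χ1 g)).val = 0 :=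
        Nat.eq_zero_of_dvd_of_lt h2 (ZMod.val_lt _)
      have h4 : Multiplicative.toAdd (χ1 g) = 0 := (ZMod.val_eq_zero _).mp h3
      exact h4
  have hχ1ne : χ1 ≠ 1 := by
    intro h
    exact hg0 ((hχ1e g0).mp (by rw [h]; rfl))
  obtain ⟨H, hH⟩ : ∃ H : Subgroup G, H = χ1.ker := ⟨_, rfl⟩
  have hHn : H.Normal := by rw [hH]; exact MonoidHom.normal_ker χ1
  have hmemH : ∀ g, g ∈ H ↔ ω g ^ p = 1 := fun g => by
    rw [hH]; exact (MonoidHom.mem_ker).trans (hχ1e g)
  have hg0H : g0 ∉ H := fun h => hg0 ((hmemH g0).mp h)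
  -- card of G
  have hcard : Nat.card G = p * Nat.card H := by
    have h1 : H.index = Nat.card χ1.range := by rw [hH]; exact Subgroup.index_ker χ1
    have h2 : Nat.card χ1.range ∣ p := by
      have := Subgroup.card_subgroup_dvd_card χ1.range
      rwa [Nat.card_eq_fintype_card (α := Multiplicative (ZMod p)), Fintype.card_multiplicative,
        ZMod.card] at this
    have h3 : Nat.card χ1.range ≠ 1 := by
      rw [← h1]
      intro h
      exact hg0H (by rw [Subgroup.index_eq_one.mp h]; trivial)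
    have h4 : H.index = p := by
      rw [h1]; exact ((Nat.dvd_prime hp.out).mp h2).resolve_left h3
    rw [← Subgroup.index_mul_card H, h4]
  have hcH : 0 < Nat.card H := Nat.card_pos
  -- first Artin-Schreier generator
  obtain ⟨z, j, hj, hpj, hzact, hvz⟩ := hASG p G k M ι v hGS hG χ1 hχ1ne
  have hzmv : ∀ g : G, g • z = z ↔ ω g ^ p = 1 := fun g =>
    (cp2_moved χ1 z hzact g).trans (hχ1e g)
  have hfp : ∀ n : ℕ, ((n : M)) ^ p = n := by
    intro n
    have h1 := map_natCast (frobenius M p) n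
    rwa [frobenius_def] at h1
  have hfix : ∀ {K : Type} [Group K] [MulSemiringAction K M] (χ : K →* Multiplicative (ZMod p))
      (x : M), (∀ g : K, g • x = x + (((Multiplicative.toAdd (χ g)).val : ℕ) : M)) →
      ∀ g : K, g • (x ^ p - x) = x ^ p - x := by
    intro K _ _ χ x hx g
    rw [smul_sub, smul_pow', hx, add_pow_char, hfp]
    ring
  have hzA := hASL p G k M ι v hGS hG z j (hfix χ1 z hzact) hvz hj hpj
  have hset1 : {g : G | g • z ≠ z} = {g : G | ω g ^ p ≠ 1} := by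
    ext g
    exact not_congr (hzmv g)
  rw [hset1] at hzA
  have hvz' : v z = ((-((j * Nat.card H : ℕ) : ℤ) : ℤ) : WithTop ℤ) := by
    apply cp2_val hp2 v z (j * Nat.card H) (Nat.mul_pos hj hcH)
    rw [hvz]
    congr 2
    rw [hcard]
    congr 1
    ring
  have hz0 : ∀ g : G, g ∉ H → v (g • z - z) = 0 := by
    intro g hg
    have h1 : g • z - z = ι (((Multiplicative.toAdd (χ1 g)).val : ℕ) : k) := by
      rw [hzact, map_natCast]; ring
    rw [h1]
    apply hGS.rv.cst
    intro h0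
    rw [h0, map_zero] at h1
    exact hg ((hmemH g).mpr ((hzmv g).mp (sub_eq_zero.mp h1)))
  -- second generator
  obtain ⟨χ, hχ⟩ := cp2_char p (ω.comp H.subtype)
    (fun h => (hmemH h).mp h.2) (ω g0 ^ p) (by rw [← pow_mul, ← sq, hω2]) hg0
  have hχ' : ∀ h : H, (ω g0 ^ p) ^ (Multiplicative.toAdd (χ h)).val = ω (h : G) := hχ
  have ho : orderOf (ω g0 ^ p) = p :=
    orderOf_eq_prime (by rw [← pow_mul, ← sq, hω2]) hg0
  have hχinj : ∀ h h' : H, ω (h : G) = ω (h' : G) → χ h = χ h' := by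
    intro h h' he
    rw [← hχ', ← hχ', pow_eq_pow_iff_modEq, ho] at he
    have h2 := (ZMod.natCast_eq_natCast_iff _ _ _).mpr he
    rw [ZMod.natCast_zmod_val, ZMod.natCast_zmod_val] at h2
    exact h2
  have hχe : ∀ h : H, χ h = 1 ↔ ω (h : G) = 1 := by
    intro h
    constructor
    · intro h1
      rw [← hχ', h1]; simp
    · intro h1
      rw [← map_one χ]
      exact hχinj h 1 (by rw [h1]; simp)
  have hg0p : g0 ^ p ∈ H := (hmemH _).mpr (by rw [map_pow, ← pow_mul, ← sq, hω2])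
  have hχg0 : (Multiplicative.toAdd (χ ⟨g0 ^ p, hg0p⟩)).val = 1 := by
    have h1 := hχ' ⟨g0 ^ p, hg0p⟩
    have h2 : (ω g0 ^ p) ^ (Multiplicative.toAdd (χ ⟨g0 ^ p, hg0p⟩)).val = (ω g0 ^ p) ^ 1 := by
      rw [h1, pow_one]; exact map_pow ω g0 p
    rw [pow_eq_pow_iff_modEq, ho] at h2
    have h3 : (Multiplicative.toAdd (χ ⟨g0 ^ p, hg0p⟩)).val % p = 1 % p := h2
    rwa [Nat.mod_eq_of_lt (ZMod.val_lt _), Nat.mod_eq_of_lt (by omega)] at h3
  have hχne : χ ≠ 1 := by
    intro h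
    rw [h] at hχg0
    simp at hχg0
  have hHp : IsPGroup p H := hG.to_subgroup H
  obtain ⟨y, b, hb, hpb, hyact, hvy⟩ := hASG p H k M ι v (hGS.sub H) hHp χ hχne
  have hyA := hASL p H k M ι v (hGS.sub H) hHp y b (hfix χ y hyact) hvy hb hpb
  have hyact' : ∀ (h : G) (hh : h ∈ H),
      h • y = y + (((Multiplicative.toAdd (χ ⟨h, hh⟩)).val : ℕ) : M) :=
    fun h hh => hyact ⟨h, hh⟩
  have hkey : (p * p - p + 1) * j ≤ b := by
    refine cp2_main hFIX hHRB hSHI hDSU p G k M ι v hGS H z j hj hpj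
      (fun h hh => (hzmv h).mpr ((hmemH h).mp hh)) hvz' hz0 y b hvy g0 hg0H ?_ ?_ ?_
    · rw [hyact' _ hg0p, hχg0]; simp
    · intro h hh
      have hn : g0⁻¹ * h * g0 ∈ H := by
        rw [hmemH]
        have : ω (g0⁻¹ * h * g0) = ω h := by
          rw [map_mul, map_mul, map_inv, mul_comm (ω g0)⁻¹, mul_assoc, inv_mul_cancel, mul_one]
        rw [this]
        exact (hmemH h).mp hh
      have h1 : h • g0 • y = g0 • (g0⁻¹ * h * g0) • y := by
        rw [smul_smul, smul_smul]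
        congr 1
        group
      have h2 : χ ⟨g0⁻¹ * h * g0, hn⟩ = χ ⟨h, hh⟩ := by
        apply hχinj
        show ω (g0⁻¹ * h * g0) = ω h
        rw [map_mul, map_mul, map_inv, mul_comm (ω g0)⁻¹, mul_assoc, inv_mul_cancel, mul_one]
      have h3 : ∀ n : ℕ, g0 • ((n : M)) = n := fun n => by
        have := map_natCast (MulSemiringAction.toRingHom G M g0) n
        exact this
      rw [smul_sub, h1, hyact' _ hn, h2, hyact' _ hh, smul_add, h3]
      ring
    · intro h hh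
      exact hfix χ y hyact ⟨h, hh⟩
  -- levels
  set l' := lev (ram (G := G) v) {g | ω g ≠ 1} with hl'
  have hL : lev (ram (G := H) v) {h : H | h • y ≠ y} ≤ l' := by
    apply lev_le
    intro h hh
    have h1 : ω (h : G) ≠ 1 := fun h0 =>
      hh ((cp2_moved χ y hyact h).mpr ((hχe h).mpr h0))
    exact le_lev (ram (G := G) v) {g | ω g ≠ 1} h1
  have hout : ∀ g : G, g ∉ H → ram v g ≤ l' := by
    intro g hg
    refine le_lev (ram (G := G) v) {g | ω g ≠ 1} ?_
    show ω g ≠ 1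
    intro h0
    exact hg ((hmemH g).mpr (by rw [h0, one_pow]))
  have hPhi : ((b : ℚ) + 1) ≤ Phi (fun h : H => ram v (h : G)) l' := by
    have h1 := cp2_Phi_mono (ram (G := H) v) hL
    rw [hyA.2] at h1
    exact h1
  have hrel := (hREL G (ram (G := G) v) H l').2.2 hout
  have hsum := (hDSU p G k M ι v hGS H z j hpj
    (fun h hh => (hzmv h).mpr ((hmemH h).mp hh)) hvz' hz0).2
  rw [hzA.2]
  have hsub : ((Nat.card G - Nat.card H : ℕ) : ℚ) = ((p : ℚ) - 1) * Nat.card H := by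
    rw [Nat.cast_sub (by rw [hcard]; nlinarith), hcard]
    push_cast
    ring
  rw [hsum, Nat.cast_mul, hsub, hcard] at hrel
  have hcq : (0 : ℚ) < Nat.card H := by exact_mod_cast hcH
  have hkeyq : (((p * p - p + 1 : ℕ) : ℚ)) * j ≤ b := by exact_mod_cast hkey
  have h5 : ((p * p - p + 1 : ℕ) : ℚ) = (p : ℚ) * p - p + 1 := by
    rw [Nat.cast_add, Nat.cast_sub (Nat.le_mul_self p)]; push_cast; ring
  rw [h5] at hkeyq
  have hpq : (2 : ℚ) ≤ p := by exact_mod_cast hp2
  -- final computation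
  have h6 : Phi (ram (G := G) v) l' * p =
      Phi (fun h : H => ram v (h : G)) l' + ((p : ℚ) - 1) * (j + 1) := by
    have h7 : (Phi (ram (G := G) v) l' * p) * Nat.card H =
        (Phi (fun h : H => ram v (h : G)) l' + ((p : ℚ) - 1) * (j + 1)) * Nat.card H := by
      push_cast at hrel
      linear_combination hrel
    exact mul_right_cancel₀ hcq.ne' h7
  have h8 : ((p : ℚ) * p * j + p) ≤ Phi (ram (G := G) v) l' * p := by
    rw [h6]
    nlinarith
  have h9 : (p : ℚ) * j + 1 ≤ Phi (ram (G := G) v) l' := by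
    have h10 : ((p : ℚ) * j + 1) * p ≤ Phi (ram (G := G) v) l' * p := by linarith
    exact le_of_mul_le_mul_right h10 (by linarith)
  linarith

end Pool.Agent.Helper22.NP
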